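import Mathlib

namespace Pool.Agent.Results.MP_0b0399_co.Three

open Finset Filter Topology

/-- The grid `[k]^d`, ordered coordinatewise. -/
def grid (d k : ℕ) : Finset (Fin d → ℕ) := Fintype.piFinset fun _ => Icc 1 k

/-- `w_{k,d}`: the largest size of an antichain of the grid. -/
noncomputable def w (d k : ℕ) : ℕ :=
  sSup {r | ∃ A ⊆ grid d k, IsAntichain (· ≤ ·) (A : Set (Fin d → ℕ)) ∧ #A = r}

/-- `F` has no strong copy of the diamond. -/
def Free {d : ℕ} (F : Finset (Fin d → ℕ)) : Prop :=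
  ¬ ∃ a ∈ F, ∃ b ∈ F, ∃ c ∈ F, ∃ e ∈ F, a < b ∧ a < c ∧ b < e ∧ c < e ∧ ¬ b ≤ c ∧ ¬ c ≤ b

/-- The largest size of a strong diamond-free subset of the grid. -/
noncomputable def La (d k : ℕ) : ℕ := sSup {r | ∃ F ⊆ grid d k, Free F ∧ #F = r}

theorem le3 {a b : Fin 3 → ℕ} : a ≤ b ↔ a 0 ≤ b 0 ∧ a 1 ≤ b 1 ∧ a 2 ≤ b 2 :=
  ⟨fun h => ⟨h 0, h 1, h 2⟩, fun h i => by fin_cases i; exacts [h.1, h.2.1, h.2.2]⟩

theorem mg {a : Fin 3 → ℕ} {k : ℕ} : a ∈ grid 3 k ↔
    (1 ≤ a 0 ∧ a 0 ≤ k) ∧ (1 ≤ a 1 ∧ a 1 ≤ k) ∧ 1 ≤ a 2 ∧ a 2 ≤ k := by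
  simp only [grid, Fintype.mem_piFinset, mem_Icc]
  exact ⟨fun h => ⟨h 0, h 1, h 2⟩, fun h i => by fin_cases i; exacts [h.1, h.2.1, h.2.2]⟩

theorem wle (m : ℕ) : w 3 (4 * m) ≤ 12 * m ^ 2 := by
  refine csSup_le ⟨0, ∅, by simp⟩ ?_
  rintro _ ⟨A, hA, an, rfl⟩
  have e : ∀ a ∈ A, ∀ b ∈ A, a ≤ b ∨ b ≤ a → a = b := fun a ha b hb h => by
    by_contra n
    exact h.elim (an ha hb n) (an hb ha (Ne.symm n))
  have c1 : #{a ∈ A | min (a 0) (4 * m + 1 - a 1) ≤ 2 * m} ≤ #(Icc 1 (2 * m) ×ˢ Icc 1 (4 * m)) := by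
    refine card_le_card_of_injOn (fun a => (min (a 0) (4 * m + 1 - a 1), a 2)) (fun a ha => ?_)
      fun a ha b hb h => ?_
    · have ha := mem_filter.1 (mem_coe.1 ha)
      have := mg.1 (hA ha.1)
      simp only [coe_product, coe_Icc, Set.mem_prod, Set.mem_Icc]
      omega
    · have ha := mem_filter.1 (mem_coe.1 ha)
      have hb := mem_filter.1 (mem_coe.1 hb)
      have := mg.1 (hA ha.1)
      have := mg.1 (hA hb.1)
      simp only [Prod.mk.injEq] at h
      exact e a ha.1 b hb.1 (by rw [le3, le3]; omega)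
  have c2 : #{a ∈ A | ¬ min (a 0) (4 * m + 1 - a 1) ≤ 2 * m} ≤
      #(Icc (2 * m + 1) (4 * m) ×ˢ Icc 1 (2 * m)) := by
    refine card_le_card_of_injOn (fun a => (a 0, a 1)) (fun a ha => ?_) fun a ha b hb h => ?_
    · have ha := mem_filter.1 (mem_coe.1 ha)
      have := mg.1 (hA ha.1)
      simp only [coe_product, coe_Icc, Set.mem_prod, Set.mem_Icc]
      omega
    · simp only [Prod.mk.injEq] at h
      exact e a (mem_filter.1 (mem_coe.1 ha)).1 b (mem_filter.1 (mem_coe.1 hb)).1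
        (by rw [le3, le3]; omega)
  have := card_filter_add_card_filter_not (s := A) fun a => min (a 0) (4 * m + 1 - a 1) ≤ 2 * m
  rw [card_product, Nat.card_Icc, Nat.card_Icc] at c1 c2
  rw [show 4 * m + 1 - (2 * m + 1) = 2 * m by omega] at c2
  simp only [Nat.add_sub_cancel] at c1 c2
  nlinarith

theorem wpos (m : ℕ) (hm : 1 ≤ m) : 1 ≤ w 3 (4 * m) := by
  refine le_csSup ⟨#(grid 3 (4 * m)), ?_⟩ ⟨{fun _ => 1}, ?_, by simp, rfl⟩
  · rintro _ ⟨A, hA, -, rfl⟩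
    exact card_le_card hA
  · rw [singleton_subset_iff, mg]
    omega

def P (m : ℕ) (a : Fin 3 → ℕ) : Prop := a 1 + a 2 + (a 0 + 1) / 2 = 5 * m + 2 ∨
  (a 0 % 2 = 0 ∧ a 1 + a 2 + a 0 / 2 = 5 * m + 3 ∧ a 1 % 3 = a 0 / 2 % 3)

instance (m : ℕ) : DecidablePred (P m) := fun _ => by unfold P; infer_instance

def N (m t : ℕ) : ℕ := 4 * m - (m - t) - (t - m)

theorem sN (m : ℕ) : ∑ t ∈ range (2 * m), N m t = 7 * m ^ 2 := by
  have a : ∀ j ≤ m, 2 * ∑ t ∈ range j, N m t + j = 6 * m * j + j ^ 2 := by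
    intro j
    induction j with
    | zero => simp
    | succ j ih =>
      intro h
      have := ih (by omega)
      have e : N m j = 3 * m + j := by unfold N; omega
      rw [sum_range_succ, e]
      nlinarith
  have b : ∀ j ≤ m, 2 * ∑ t ∈ range (m + j), N m t + m + j ^ 2 = 7 * m ^ 2 + 8 * m * j + j := by
    intro j
    induction j with
    | zero => have := a m le_rfl; intro _; simp only [add_zero]; nlinarith
    | succ j ih =>
      intro h
      have := ih (by omega)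
      have e : N m (m + j) + j = 4 * m := by unfold N; omega
      rw [← add_assoc, sum_range_succ]
      nlinarith
  have := b m le_rfl
  rw [two_mul m]
  nlinarith

theorem vee {m : ℕ} {a b c : Fin 3 → ℕ} (ha : P m a) (hb : P m b) (hc : P m c) (u : a ≤ b)
    (v : a ≤ c) (x : ¬ b ≤ c) (y : ¬ c ≤ b) : False := by
  rw [le3] at u v x y
  unfold P at ha hb hc
  have k1 : b 1 = a 1 ∨ b 1 = a 1 + 1 := by omega
  have k2 : c 1 = a 1 ∨ c 1 = a 1 + 1 := by omega
  have k3 : c 0 / 2 = b 0 / 2 + 1 ∨ b 0 / 2 = c 0 / 2 + 1 ∨ b 0 / 2 = c 0 / 2 := by omega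
  rcases k1 with k1 | k1 <;> rcases k2 with k2 | k2 <;> rcases k3 with k3 | k3 | k3 <;>
    rw [k1, k2] at * <;> omega

def P' (m : ℕ) (a : Fin 3 → ℕ) : Prop := a 1 + a 2 + (a 0 + 1) / 2 = 5 * m + 2 ∨
  (a 0 % 2 = 0 ∧ a 1 + a 2 + a 0 / 2 = 5 * m + 3)

theorem pp {m : ℕ} {a : Fin 3 → ℕ} (h : P m a ∨ a 1 + a 2 + a 0 / 2 = 5 * m + 5) :
    P' m a ∨ a 1 + a 2 + a 0 / 2 = 5 * m + 5 := h.imp_left (Or.imp_right fun g => ⟨g.1, g.2.1⟩)

theorem top {m : ℕ} {a b c e : Fin 3 → ℕ} (ha : P' m a ∨ a 1 + a 2 + a 0 / 2 = 5 * m + 5)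
    (hb : b 1 + b 2 + b 0 / 2 = 5 * m + 5) (hc : P' m c ∨ c 1 + c 2 + c 0 / 2 = 5 * m + 5)
    (he : P' m e ∨ e 1 + e 2 + e 0 / 2 = 5 * m + 5) (u : a ≤ b) (v : a ≤ c) (u' : b ≤ e)
    (v' : c ≤ e) (x : ¬ b ≤ c) (y : ¬ c ≤ b) : False := by
  rw [le3] at u v u' v' x y
  unfold P' at ha hc he
  have k1 : e 1 = b 1 ∧ e 2 = b 2 ∧ e 0 ≤ b 0 + 1 ∧ (e 0 = b 0 + 1 → e 0 % 2 = 1) := by omega
  have k2 : c 0 = e 0 ∧ c 0 % 2 = 1 := by omega
  omega

theorem cP (m : ℕ) : 49 * m ^ 2 ≤ 3 * #{a ∈ grid 3 (4 * m) | P m a} + 10 * m := by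
  have c : #((range (2 * m)).sigma fun t => range (2 * N m t + (N m t / 3 - 1))) ≤
      #{a ∈ grid 3 (4 * m) | P m a} := by
    refine card_le_card_of_injOn (fun s => if s.2 < 2 * N m s.1 then
      ![2 * s.1 + 1 + s.2 % 2, m - s.1 + s.2 / 2 + 1, 5 * m - s.1 - (m - s.1 + s.2 / 2)] else
      ![2 * s.1 + 2, 3 * (s.2 - 2 * N m s.1 + (m - s.1 + 1) / 3 + 1) + (s.1 + 1) % 3,
        5 * m + 2 - s.1 - (3 * (s.2 - 2 * N m s.1 + (m - s.1 + 1) / 3 + 1) + (s.1 + 1) % 3)])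
      (fun s hs => ?_) fun s hs r hr h => ?_
    · obtain ⟨t, i⟩ := s
      simp only [coe_sigma, Set.mem_sigma_iff, coe_range, Set.mem_Iio] at hs
      simp only [coe_filter, Set.mem_ofPred_eq, mg, P]
      unfold N at *
      split_ifs with g
      · simp only [Matrix.cons_val_zero, Matrix.cons_val_one, Matrix.cons_val_two, Matrix.head_cons,
          Matrix.tail_cons]
        omega
      · simp only [Matrix.cons_val_zero, Matrix.cons_val_one, Matrix.cons_val_two, Matrix.head_cons,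
          Matrix.tail_cons]
        omega
    · obtain ⟨t, i⟩ := s
      obtain ⟨t', j⟩ := r
      simp only [coe_sigma, Set.mem_sigma_iff, coe_range, Set.mem_Iio] at hs hr
      have : t = t' ∧ i = j := by
        have h0 := congrFun h 0
        have h1 := congrFun h 1
        have h2 := congrFun h 2
        clear h
        unfold N at *
        dsimp only at h0 h1 h2
        split_ifs at h0 h1 h2 <;>
        simp only [Matrix.cons_val_zero, Matrix.cons_val_one, Matrix.cons_val_two, Matrix.head_cons,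
          Matrix.tail_cons] at h0 h1 h2 <;> omega
      obtain ⟨rfl, rfl⟩ := this
      rfl
  rw [card_sigma] at c
  simp only [card_range] at c
  have s : ∑ t ∈ range (2 * m), 7 * N m t ≤
      ∑ t ∈ range (2 * m), (3 * (2 * N m t + (N m t / 3 - 1)) + 5) :=
    sum_le_sum fun t _ => by omega
  rw [← mul_sum, sN, sum_add_distrib, ← mul_sum, sum_const, card_range, smul_eq_mul] at s
  omega

theorem cT (m : ℕ) :
    14 * m ^ 2 ≤ #{a ∈ grid 3 (4 * m) | a 1 + a 2 + a 0 / 2 = 5 * m + 5} + 20 * m := by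
  have c : #((range (2 * m)).sigma fun t => range (2 * (N m t - 5))) ≤
      #{a ∈ grid 3 (4 * m) | a 1 + a 2 + a 0 / 2 = 5 * m + 5} := by
    refine card_le_card_of_injOn (fun s => ![2 * s.1 + 1 + s.2 % 2, m - s.1 + s.2 / 2 + 5,
      5 * m - s.1 - s.2 % 2 - (m - s.1 + s.2 / 2)]) (fun s hs => ?_) fun s hs r hr h => ?_
    · obtain ⟨t, i⟩ := s
      simp only [coe_sigma, Set.mem_sigma_iff, coe_range, Set.mem_Iio] at hs
      simp only [coe_filter, Set.mem_ofPred_eq, mg, Matrix.cons_val_zero, Matrix.cons_val_one,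
        Matrix.cons_val_two, Matrix.head_cons, Matrix.tail_cons]
      unfold N at hs
      omega
    · obtain ⟨t, i⟩ := s
      obtain ⟨t', j⟩ := r
      have : t = t' ∧ i = j := by
        have h0 : 2 * t + 1 + i % 2 = 2 * t' + 1 + j % 2 := congrFun h 0
        have h1 : m - t + i / 2 + 5 = m - t' + j / 2 + 5 := congrFun h 1
        omega
      obtain ⟨rfl, rfl⟩ := this
      rfl
  rw [card_sigma] at c
  simp only [card_range] at c
  have s : ∑ t ∈ range (2 * m), 2 * N m t ≤ ∑ t ∈ range (2 * m), (2 * (N m t - 5) + 10) :=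
    sum_le_sum fun t _ => by omega
  rw [← mul_sum, sN, sum_add_distrib, sum_const, card_range, smul_eq_mul] at s
  omega

theorem low (m : ℕ) : 91 * m ^ 2 ≤ 3 * La 3 (4 * m) + 70 * m := by
  let F := {a ∈ grid 3 (4 * m) | P m a ∨ a 1 + a 2 + a 0 / 2 = 5 * m + 5}
  have fr : Free F := by
    rintro ⟨a, ha, b, hb, c, hc, e, he, u, v, u', v', x, y⟩
    have ha := (mem_filter.1 ha).2
    have hb := (mem_filter.1 hb).2
    have hc := (mem_filter.1 hc).2
    have he := (mem_filter.1 he).2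
    rcases hb with hb | hb
    · rcases hc with hc | hc
      · rcases ha with ha | ha
        · exact vee ha hb hc u.le v.le x y
        · have := le3.1 u.le
          unfold P at hb
          omega
      · exact top (pp ha) hc (pp (Or.inl hb)) (pp he) v.le u.le v'.le u'.le y x
    · exact top (pp ha) hb (pp hc) (pp he) u.le v.le u'.le v'.le x y
  have le : #F ≤ La 3 (4 * m) := by
    refine le_csSup ⟨#(grid 3 (4 * m)), ?_⟩ ⟨_, filter_subset _ _, fr, rfl⟩
    rintro _ ⟨A, hA, -, rfl⟩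
    exact card_le_card hA
  have c : #F = #{a ∈ grid 3 (4 * m) | P m a} +
      #{a ∈ grid 3 (4 * m) | a 1 + a 2 + a 0 / 2 = 5 * m + 5} := (congrArg card (filter_or _ _ _)).trans (card_union_of_disjoint
    (disjoint_filter.2 fun a _ h g => by unfold P at h; omega))
  have := cP m
  have := cT m
  omega

theorem result : ¬ Tendsto (fun k => (La 3 k : ℝ) / w 3 k) atTop (𝓝 (2 + 1 / 3)) := by
  intro H
  obtain ⟨K, hK⟩ := eventually_atTop.1 (H.eventually
    (gt_mem_nhds (show (2 : ℝ) + 1 / 3 < 29 / 12 by norm_num)))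
  have h := hK (4 * (K + 20)) (by omega)
  have a : (1 : ℝ) ≤ w 3 (4 * (K + 20)) := by exact_mod_cast wpos _ (by omega)
  have b : (w 3 (4 * (K + 20)) : ℝ) ≤ 12 * (K + 20) ^ 2 := by exact_mod_cast wle (K + 20)
  have c : (91 : ℝ) * (K + 20) ^ 2 ≤ 3 * La 3 (4 * (K + 20)) + 70 * (K + 20) := by
    exact_mod_cast low (K + 20)
  rw [div_lt_iff₀ (by linarith)] at h
  have : (0 : ℝ) ≤ K := Nat.cast_nonneg K
  nlinarith

end Pool.Agent.Results.MP_0b0399_co.Three
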